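import Pool.Agent.Results.MP_34deb4_co.LongTails
import Pool.Agent.Run7.h538.TP.END
import Pool.Agent.Run7.h989.TP.EXB
import Pool.Agent.Run7.h889.TP.LZ
import Pool.Agent.Run7.h183.TP.LST
import Pool.Agent.Run7.h896.TP.LAG
import Pool.Agent.Run7.h957.TP.PF
import Pool.Agent.Run7.h216.TP.KER
import Pool.Agent.Run7.h456.TP.CONp
import Pool.Agent.Run7.h220.TP.PAT
import Pool.Agent.Run7.h232.TP.PROP
import Pool.Agent.Run7.h299.TP.COL
import Pool.Agent.Run7.h579.TP.DD
import Pool.Agent.Run7.h300.TP.SIG
import Pool.Agent.Run7.h600.TP.INV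

/-!
# The tadpole `T_{m,n}` is an SSP graph if and only if `m ≤ 2 n + 3`

The condition is sufficient by `Pool.Agent.Results.MP_34deb4_co.LongTails`. For `m ≥ 2 n + 4` there is a matrix `B`
of `T_{m,n}` with `n + 2` double eigenvalues `μ_i`; changing the sign of one cycle edge gives a
matrix `A`, and `X = ∑ d_i (A - μ_i)⁻¹`, where `∑ d_i = 0` and `∑ d_i (T - μ_i)⁻¹ = 0` for the
tail block `T`, shows that `A` does not have the strong spectral property.
-/

set_option autoImplicit false

namespace Pool.Agent.Results.MP_34deb4_co.TadpolesExactly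

/-- the symmetric matrices of a graph: for `i ≠ j` the entry is nonzero exactly on the edges, the
diagonal is free -/
def InS {V : Type} (G : SimpleGraph V) (A : Matrix V V ℝ) : Prop :=
  A.IsSymm ∧ ∀ i j, i ≠ j → (A i j ≠ 0 ↔ G.Adj i j)

/-- the strong spectral property -/
def HasSSP {V : Type} [Fintype V] (A : Matrix V V ℝ) : Prop :=
  ∀ X : Matrix V V ℝ, X.IsSymm → (∀ i j, A i j * X i j = 0) → (∀ i, X i i = 0) →
    A * X = X * A → X = 0

/-- SSP graphs: every matrix of the graph has the strong spectral property -/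
def IsSSPGraph {V : Type} [Fintype V] (G : SimpleGraph V) : Prop :=
  ∀ A : Matrix V V ℝ, InS G A → HasSSP A

/-- the tadpole `T_{m,n}`: the cycle on `Fin m`, the path on `Fin n` and the bridge joining the
vertex `0` of the cycle to the end vertex `0` of the path -/
def tadpole (m n : ℕ) : SimpleGraph (Fin m ⊕ Fin n) :=
  SimpleGraph.fromRel fun x y =>
    match x, y with
    | .inl i, .inl j => (i.val + 1) % m = j.val
    | .inr i, .inr j => i.val + 1 = j.val
    | .inl i, .inr j => i.val = 0 ∧ j.val = 0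
    | .inr _, .inl _ => False

/-- **The tadpole `T_{m,n}` is an SSP graph if and only if `m ≤ 2 n + 3`.** -/
theorem result : ∀ m n : ℕ, 3 ≤ m → 1 ≤ n → (IsSSPGraph (tadpole m n) ↔ m ≤ 2 * n + 3) := by
  intro m n hm hn
  constructor
  · intro h
    by_contra hcon
    refine Run7.h538.TP.t_END
      (Run7.h989.TP.t_EXB Run7.h889.TP.t_LZ (Run7.h183.TP.t_LST Run7.h896.TP.t_LAG)
        Run7.h957.TP.t_PF Run7.h456.TP.t_CON Run7.h220.TP.t_PAT Run7.h216.TP.t_KER)
      Run7.h300.TP.t_SIG (Run7.h600.TP.t_INV Run7.h232.TP.t_PROP)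
      Run7.h299.TP.t_COL Run7.h579.TP.t_DD m n hn (by omega) h
  · exact fun h => Pool.Agent.Results.MP_34deb4_co.LongTails.result m n hm hn h

end Pool.Agent.Results.MP_34deb4_co.TadpolesExactly
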